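import Mathlib
import Pool.Agent.MP_9d78a0_co.fb.Final
import Pool.Agent.MP_9d78a0_co.gm.GMT

set_option autoImplicit false

namespace Pool.Agent.Results.MP_9d78a0_co.Full

open Pool.Agent.MP_9d78a0_co Filter Topology

/-- For every nonempty family of graphs, each with an edge, the normalised gap between the largest
and the least edge count of edge-maximal free graphs converges. -/
theorem result (F : Family) (hF : F.Nonempty) (he : ∀ H ∈ F, H.2 ≠ ⊥) :
    ∃ l : ℝ, Tendsto (fun n : ℕ => (gap F n : ℝ) / n) atTop (𝓝 l) := by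
  obtain ⟨a, b, -, -, k⟩ := fb.fin_thm F hF he (fb.basis_of_rs gm.gmt F)
  exact ⟨_, k⟩

end Pool.Agent.Results.MP_9d78a0_co.Full
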